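import Pool.Agent.Q261.SignPart

/-!
# The sign sequence of the signed counts of partitions into parts `1 mod 3`

For `A = {3m+1 : m ∈ ℕ}` the sequence `sign (f_{A,n}(-1))` is not eventually periodic.
-/

set_option autoImplicit false

namespace Pool.Agent.Results.MP_5217bf_nt.NotPeriodic

open Polynomial

/-- `p` is an `A`-partition: all parts lie in `A` -/
def IsAPartition (A : Set ℕ) {n : ℕ} (p : n.Partition) : Prop := ∀ i ∈ p.parts, i ∈ A

open Classical in
/-- the `n`-th `A`-partition polynomial `f_{A,n}(t) = ∑ t ^ (number of parts)`, the sum running over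
all `A`-partitions of `n` -/
noncomputable def f (A : Set ℕ) (n : ℕ) : ℤ[X] :=
  ∑ p ∈ Finset.univ.filter (fun p : n.Partition => IsAPartition A p), X ^ (Multiset.card p.parts)

/-- a sequence is (eventually) periodic -/
def EventuallyPeriodic (s : ℕ → SignType) : Prop :=
  ∃ p N : ℕ, 1 ≤ p ∧ ∀ n : ℕ, N ≤ n → s (n + p) = s n

theorem eval_f (n : ℕ) : (((f {a : ℕ | ∃ m : ℕ, a = 3 * m + 1} n).eval (-1) : ℤ) : ℂ) =
    Q261.PartGen.W Q261.PartGen.A (-1 : ℂ) n := by
  classical
  rw [f, eval_finsetSum, Q261.PartGen.W, Int.cast_sum]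
  apply Finset.sum_congr
  · ext p
    simp only [Finset.mem_filter, Finset.mem_univ, true_and]
    rfl
  · intro p _
    simp

/-- **Main result**: for `A = {3m+1 : m ∈ ℕ}`, the sequence `sign (f_{A,n}(-1))` is not eventually
periodic. -/
theorem result : ¬ EventuallyPeriodic
    (fun n => SignType.sign ((f {a : ℕ | ∃ m : ℕ, a = 3 * m + 1} n).eval (-1))) := by
  rintro ⟨p, N, hp, h⟩
  exact Q261.SignPart.main (fun n => (f {a : ℕ | ∃ m : ℕ, a = 3 * m + 1} n).eval (-1)) eval_f p N hp h

end Pool.Agent.Results.MP_5217bf_nt.NotPeriodic
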